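import Pool.Agent.Run7.h805.Quad.Main

/-!
# Intersections of two quadrics over fields of cohomological dimension one (helper805)

Q1 has a negative answer (the problem puts no restriction on the characteristic): over every field
`k₀` of characteristic two there is a field `k` of cohomological dimension one with smooth complete
intersections of two quadrics in `ℙⁿ` without `k`-points for every odd `n ≥ 3`, in particular for
`n = 5`. The field `k` is not perfect; it is a maximal prime to `2` separable extension of
`k₀(α₀, α₁, α₂, …)(c)` (the field of the starting results on `MP_8f38d0_ag`), and the forms are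
`f = ∑ⱼ qⱼ` and `g = ∑ⱼ (λⱼ qⱼ + xⱼ²)` with `qⱼ = aⱼ xⱼ² + c xⱼ yⱼ + bⱼ yⱼ²` and distinct `λⱼ`.
-/

set_option autoImplicit false

open MvPolynomial Pool.Agent.Helper346.Cd

namespace Pool.Agent.Results.MP_0f87c6_ag.CharacteristicTwo

/-- The field `k` has cohomological dimension exactly one: for its absolute Galois group `G` one has
`H^q(G, M) = 0` for all `q ≥ 2` and all discrete torsion `G`-modules `M`, and `H¹(G, M) ≠ 0` for
some discrete torsion `G`-module `M`. -/
def CohomologicalDimensionOne (k : Type) [Field k] : Prop :=
  CdLeOne Gal(SeparableClosure k/k) ∧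
  ∃ (M : Type) (_ : AddCommGroup M) (_ : DistribMulAction Gal(SeparableClosure k/k) M),
    IsDiscreteModule Gal(SeparableClosure k/k) M ∧ (∀ a : M, IsOfFinAddOrder a) ∧
    ¬ HSuccVanishes Gal(SeparableClosure k/k) M 0

/-- The forms `f` and `g` in `n + 1` variables define a smooth complete intersection of two
quadrics in `ℙⁿ`: they are quadratic forms and their gradients are linearly independent at every
point of `f = g = 0` over an algebraic closure. -/
def IsSmoothIntersection {k : Type} [Field k] {n : ℕ} (f g : MvPolynomial (Fin (n + 1)) k) :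
    Prop :=
  f.IsHomogeneous 2 ∧ g.IsHomogeneous 2 ∧
  ∀ x : Fin (n + 1) → AlgebraicClosure k, x ≠ 0 → aeval x f = 0 → aeval x g = 0 →
    LinearIndependent (AlgebraicClosure k)
      ![fun i => aeval x (pderiv i f), fun i => aeval x (pderiv i g)]

/-- Every field `k₀` of characteristic two has an extension field `k` of cohomological dimension
exactly one, all of whose irreducible polynomials have degree a power of two, such that for every
odd `n ≥ 3` (in particular for `n = 5`) there is a smooth complete intersection `f = g = 0` of two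
quadrics in `ℙⁿ` over `k` without `k`-points; even the quadric `f = 0` has no `k`-point. -/
theorem result (k₀ : Type) [Field k₀] [CharP k₀ 2] :
    ∃ (k : Type) (_ : Field k) (_ : Algebra k₀ k), CohomologicalDimensionOne k ∧
    (∀ h : Polynomial k, Irreducible h → ∃ t, h.natDegree = 2 ^ t) ∧
    ∀ n : ℕ, 3 ≤ n → Odd n → ∃ f g : MvPolynomial (Fin (n + 1)) k,
      IsSmoothIntersection f g ∧ ∀ x : Fin (n + 1) → k, eval x f = 0 → x = 0 := by
  obtain ⟨k, _, halg, -, hcd, hne, hirr, hfg⟩ := Run7.h805.Quad.main k₀
  refine ⟨k, inferInstance, halg, ⟨hcd, hne⟩, hirr, ?_⟩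
  rintro n - ⟨m, rfl⟩
  obtain ⟨f, g, hf, hg, hs, hn⟩ := hfg m
  exact ⟨f, g, ⟨hf, hg, hs⟩, hn⟩

end Pool.Agent.Results.MP_0f87c6_ag.CharacteristicTwo
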